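import Pool.Agent.Helper47.FC.Table

/-!
# Real expressions as data

`RE.val a .. i e` is the real expression of `e` (the variables `v0 .. v8` are `a .. i`): it is equal to the
expression by computation, so that an inequality of real numbers is proved by one application of `finE`.
-/

set_option autoImplicit false

namespace Pool.Agent.Helper83.Cert

open Pool.Agent.Helper47.FC

/-- expressions: `0`, `1`, `k + 2`, the variables, sum, difference, product, negation, quotient by `k + 2`,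
square, cube -/
inductive RE
  | z | o
  | n (k : ℕ)
  | v0 | v1 | v2 | v3 | v4 | v5 | v6 | v7 | v8
  | A (a b : RE)
  | S (a b : RE)
  | M (a b : RE)
  | N (a : RE)
  | D (a : RE) (k : ℕ)
  | P (a : RE)
  | Q (a : RE)

/-- the value -/
@[reducible] noncomputable def RE.val (a b c d e f g h i : ℝ) (t : RE) : ℝ :=
  RE.rec (motive := fun _ => ℝ) 0 1 (fun k => (OfNat.ofNat (k + 2) : ℝ)) a b c d e f g h i
    (fun _ _ x y => x + y) (fun _ _ x y => x - y) (fun _ _ x y => x * y) (fun _ x => -x)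
    (fun _ k x => x / (OfNat.ofNat (k + 2) : ℝ)) (fun _ x => x ^ 2) (fun _ x => x ^ 3) t

/-- the denominator -/
noncomputable def RE.den (t : RE) : ℕ :=
  RE.rec (motive := fun _ => ℕ) 1 1 (fun _ => 1) 1 1 1 1 1 1 1 1 1
    (fun _ _ x y => Nat.div (Nat.mul x y) (Nat.gcd x y))
    (fun _ _ x y => Nat.div (Nat.mul x y) (Nat.gcd x y)) (fun _ _ x y => Nat.mul x y) (fun _ x => x)
    (fun _ k x => Nat.mul x (Nat.add k 2)) (fun _ x => Nat.mul x x)
    (fun _ x => Nat.mul x (Nat.mul x x)) t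

/-- `s` times the expression -/
noncomputable def RE.ex (t : RE) : ℕ → Ex :=
  RE.rec (motive := fun _ => ℕ → Ex) (fun _ => .c (Int.ofNat 0)) (fun s => .c (Int.ofNat s))
    (fun k s => .c (Int.ofNat (Nat.mul s (Nat.add k 2))))
    (fun s => .mul (.c (Int.ofNat s)) (.v 2)) (fun s => .mul (.c (Int.ofNat s)) (.v 3))
    (fun s => .mul (.c (Int.ofNat s)) (.v 5)) (fun s => .mul (.c (Int.ofNat s)) (.v 7))
    (fun s => .mul (.c (Int.ofNat s)) (.v 11)) (fun s => .mul (.c (Int.ofNat s)) (.v 13))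
    (fun s => .mul (.c (Int.ofNat s)) (.v 17)) (fun s => .mul (.c (Int.ofNat s)) (.v 19))
    (fun s => .mul (.c (Int.ofNat s)) (.v 23))
    (fun _ _ x y s => .add (x s) (y s)) (fun _ _ x y s => .sub (x s) (y s))
    (fun _ b x y s => .mul (x (Nat.div s b.den)) (y b.den)) (fun _ x s => .sub (.c (Int.ofNat 0)) (x s))
    (fun _ k x s => x (Nat.div s (Nat.add k 2)))
    (fun a x s => .mul (x (Nat.div s a.den)) (x a.den))
    (fun a x s => .mul (x (Nat.div s (Nat.mul a.den a.den))) (.mul (x a.den) (x a.den))) t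

theorem RE.den_pos (t : RE) : 0 < t.den := by
  induction t with
  | z => exact Nat.one_pos
  | o => exact Nat.one_pos
  | n k => exact Nat.one_pos
  | v0 => exact Nat.one_pos
  | v1 => exact Nat.one_pos
  | v2 => exact Nat.one_pos
  | v3 => exact Nat.one_pos
  | v4 => exact Nat.one_pos
  | v5 => exact Nat.one_pos
  | v6 => exact Nat.one_pos
  | v7 => exact Nat.one_pos
  | v8 => exact Nat.one_pos
  | A a b ha hb => exact Nat.lcm_pos ha hb
  | S a b ha hb => exact Nat.lcm_pos ha hb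
  | M a b ha hb => exact Nat.mul_pos ha hb
  | N a ha => exact ha
  | D a k ha => exact Nat.mul_pos ha (Nat.succ_pos _)
  | P a ha => exact Nat.mul_pos ha ha
  | Q a ha => exact Nat.mul_pos ha (Nat.mul_pos ha ha)

section

variable (a b c d e f g h i : ℝ)

theorem RE.ex_val (t : RE) : ∀ s : ℕ, t.den ∣ s →
    exVal (yv a b c d e f g h i) (t.ex s) = (s : ℝ) * t.val a b c d e f g h i := by
  induction t with
  | z =>
    intro s _
    show (((Int.ofNat 0 : ℤ)) : ℝ) = (s : ℝ) * 0
    simp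
  | o =>
    intro s _
    show (((Int.ofNat s : ℤ)) : ℝ) = (s : ℝ) * 1
    simp
  | n k =>
    intro s _
    show (((Int.ofNat (s * (k + 2)) : ℤ)) : ℝ) = (s : ℝ) * (OfNat.ofNat (k + 2) : ℝ)
    have e1 : ((OfNat.ofNat (k + 2) : ℕ) : ℝ) = (OfNat.ofNat (k + 2) : ℝ) := Nat.cast_ofNat
    rw [← e1, Int.ofNat_eq_natCast, Int.cast_natCast, Nat.cast_mul]
    rfl
  | v0 => intro s _; exact (congrArg₂ (· * ·) (Int.cast_natCast s) (exv2 a b c d e f g h i) : _)
  | v1 => intro s _; exact (congrArg₂ (· * ·) (Int.cast_natCast s) (exv3 a b c d e f g h i) : _)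
  | v2 => intro s _; exact (congrArg₂ (· * ·) (Int.cast_natCast s) (exv5 a b c d e f g h i) : _)
  | v3 => intro s _; exact (congrArg₂ (· * ·) (Int.cast_natCast s) (exv7 a b c d e f g h i) : _)
  | v4 => intro s _; exact (congrArg₂ (· * ·) (Int.cast_natCast s) (exv11 a b c d e f g h i) : _)
  | v5 => intro s _; exact (congrArg₂ (· * ·) (Int.cast_natCast s) (exv13 a b c d e f g h i) : _)
  | v6 => intro s _; exact (congrArg₂ (· * ·) (Int.cast_natCast s) (exv17 a b c d e f g h i) : _)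
  | v7 => intro s _; exact (congrArg₂ (· * ·) (Int.cast_natCast s) (exv19 a b c d e f g h i) : _)
  | v8 => intro s _; exact (congrArg₂ (· * ·) (Int.cast_natCast s) (exv23 a b c d e f g h i) : _)
  | A x y hx hy =>
    intro s hs
    have k1 : x.den ∣ s := (Nat.dvd_lcm_left x.den y.den).trans hs
    have k2 : y.den ∣ s := (Nat.dvd_lcm_right x.den y.den).trans hs
    show exVal _ (x.ex s) + exVal _ (y.ex s) = (s : ℝ) * (_ + _)
    rw [hx s k1, hy s k2]
    exact (mul_add _ _ _).symm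
  | S x y hx hy =>
    intro s hs
    have k1 : x.den ∣ s := (Nat.dvd_lcm_left x.den y.den).trans hs
    have k2 : y.den ∣ s := (Nat.dvd_lcm_right x.den y.den).trans hs
    show exVal _ (x.ex s) - exVal _ (y.ex s) = (s : ℝ) * (_ - _)
    rw [hx s k1, hy s k2]
    exact (mul_sub _ _ _).symm
  | M x y hx hy =>
    intro s hs
    have k0 : x.den * y.den ∣ s := hs
    have k2 : y.den ∣ s := (Dvd.intro_left _ rfl).trans k0
    have k1 : x.den ∣ s / y.den := Nat.dvd_div_of_mul_dvd (by rwa [Nat.mul_comm] at k0)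
    show exVal _ (x.ex (s / y.den)) * exVal _ (y.ex y.den) = (s : ℝ) * (_ * _)
    rw [hx _ k1, hy _ dvd_rfl, Nat.cast_div k2 (by exact_mod_cast y.den_pos.ne')]
    have k3 : ((y.den : ℕ) : ℝ) ≠ 0 := by exact_mod_cast y.den_pos.ne'
    field_simp
  | N x hx =>
    intro s hs
    show ((Int.ofNat 0 : ℤ) : ℝ) - exVal _ (x.ex s) = (s : ℝ) * (-_)
    rw [hx s hs]
    simp
  | D x k hx =>
    intro s hs
    have k0 : x.den * (k + 2) ∣ s := hs
    have k2 : (k + 2) ∣ s := (Dvd.intro_left _ rfl).trans k0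
    have k1 : x.den ∣ s / (k + 2) := Nat.dvd_div_of_mul_dvd (by rwa [Nat.mul_comm] at k0)
    show exVal _ (x.ex (s / (k + 2))) = (s : ℝ) * (_ / (OfNat.ofNat (k + 2) : ℝ))
    have e1 : ((k + 2 : ℕ) : ℝ) = (OfNat.ofNat (k + 2) : ℝ) := Nat.cast_ofNat
    rw [hx _ k1, Nat.cast_div k2 (by positivity), e1]
    ring
  | P x hx =>
    intro s hs
    have k0 : x.den * x.den ∣ s := hs
    have k2 : x.den ∣ s := (Dvd.intro_left _ rfl).trans k0
    have k1 : x.den ∣ s / x.den := Nat.dvd_div_of_mul_dvd k0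
    show exVal _ (x.ex (s / x.den)) * exVal _ (x.ex x.den) = (s : ℝ) * (_ ^ 2)
    rw [hx _ k1, hx _ dvd_rfl, Nat.cast_div k2 (by exact_mod_cast x.den_pos.ne')]
    have k3 : ((x.den : ℕ) : ℝ) ≠ 0 := by exact_mod_cast x.den_pos.ne'
    field_simp
  | Q x hx =>
    intro s hs
    have k0 : x.den * (x.den * x.den) ∣ s := hs
    have k2 : x.den * x.den ∣ s := (Dvd.intro_left _ rfl).trans k0
    have k1 : x.den ∣ s / (x.den * x.den) := Nat.dvd_div_of_mul_dvd (by rwa [Nat.mul_comm] at k0)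
    show exVal _ (x.ex (s / (x.den * x.den))) * (exVal _ (x.ex x.den) * exVal _ (x.ex x.den)) =
      (s : ℝ) * (_ ^ 3)
    have k3 : ((x.den : ℕ) : ℝ) ≠ 0 := by exact_mod_cast x.den_pos.ne'
    have k4 : ((x.den * x.den : ℕ) : ℝ) ≠ 0 := by
      push_cast
      exact mul_ne_zero k3 k3
    rw [hx _ k1, hx _ dvd_rfl, Nat.cast_div k2 k4]
    push_cast
    field_simp

/-- the hypotheses -/
@[reducible] def HG (v : RE → ℝ) (gs : List RE) : Prop :=
  List.rec (motive := fun _ => Prop) True (fun g _ ih => 0 ≤ v g ∧ ih) gs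

/-- the constraints -/
noncomputable def exs (gs : List RE) : List Ex :=
  List.rec (motive := fun _ => List Ex) [] (fun g _ ih => g.ex g.den :: ih) gs

theorem exs_ok (gs : List RE) : HG (RE.val a b c d e f g h i) gs →
    ∀ t ∈ exs gs, 0 ≤ exVal (yv a b c d e f g h i) t := by
  induction gs with
  | nil => intro _ t ht; exact absurd ht List.not_mem_nil
  | cons q l ih =>
    intro hq t ht
    have hq' : 0 ≤ q.val a b c d e f g h i ∧ HG (RE.val a b c d e f g h i) l := hq
    have ht' : t ∈ q.ex q.den :: exs l := ht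
    rcases List.mem_cons.1 ht' with rfl | ht'
    · rw [RE.ex_val a b c d e f g h i q q.den dvd_rfl]
      exact mul_nonneg (Nat.cast_nonneg _) hq'.1
    · exact ih hq'.2 t ht'

end

theorem sn {a b : ℝ} (h : a ≤ b) : 0 ≤ b - a := sub_nonneg.2 h

/-- **The conclusion.** -/
theorem finE {a b c d e f g h i : ℝ} (hy : ∀ k, 0 ≤ yv a b c d e f g h i k) (p q : RE) (gs : List RE)
    (H : HG (RE.val a b c d e f g h i) gs) (M k1 s1 k2 s2 : ℕ)
    (k : chkA V9 P9 1069 (exs gs) (.sub (q.ex (Nat.div (Nat.mul p.den q.den) (Nat.gcd p.den q.den)))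
      (p.ex (Nat.div (Nat.mul p.den q.den) (Nat.gcd p.den q.den)))) M k1 s1 k2 s2 = true) :
    p.val a b c d e f g h i ≤ q.val a b c d e f g h i := by
  have h1 := chkA_sound vars9 (by decide) k hy (exs_ok a b c d e f g h i gs H)
  have e0 : Nat.div (Nat.mul p.den q.den) (Nat.gcd p.den q.den) = Nat.lcm p.den q.den := rfl
  have hp : 0 < Nat.lcm p.den q.den := Nat.lcm_pos p.den_pos q.den_pos
  rw [exsub, e0, RE.ex_val a b c d e f g h i q _ (Nat.dvd_lcm_right _ _),
    RE.ex_val a b c d e f g h i p _ (Nat.dvd_lcm_left _ _), ← mul_sub] at h1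
  have h2 : (0 : ℝ) < (Nat.lcm p.den q.den : ℕ) := by exact_mod_cast hp
  have := (mul_nonneg_iff_of_pos_left h2).1 h1
  linarith

end Pool.Agent.Helper83.Cert
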