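import Mathlib

/-!
# A kernel checker for certificates of nonnegativity

A polynomial is a list of pairs (monomial, integer coefficient). The monomial `∏ x_p ^ e_p` is coded
by the number `∏ p ^ e_p` (`p` the primes): the product of monomials is the product of their codes.
A certificate `NN` is an expression built from the constraints `g_j ≥ 0`, squares, and polynomials
with coefficients in `ℕ` by sums and products; `check gs p e = true` says that the expression is the
polynomial `p`. Then `p ≥ 0` at every point with nonnegative coordinates and `g_j ≥ 0`.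
The definitions use the recursors directly: this is what the kernel evaluates fastest.
-/

set_option autoImplicit false

namespace Pool.Agent.Helper83.Cert

/-- polynomials -/
abbrev Pol := List (ℕ × ℤ)

/-- cons, unless the coefficient is zero -/
noncomputable def consZ (k : ℕ) (c : ℤ) (l : Pol) : Pol :=
  Int.rec (motive := fun _ => Pol)
    (fun n => Bool.rec (motive := fun _ => Pol) ((k, Int.ofNat n) :: l) l (Nat.beq n 0))
    (fun n => (k, Int.negSucc n) :: l) c

/-- the inner recursion of the sum -/
noncomputable def addAux (a : ℕ × ℤ) (p : Pol) (ih : Pol → Pol) (q : Pol) : Pol :=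
  List.rec (motive := fun _ => Pol) (a :: p) (fun b q r =>
    Bool.rec (motive := fun _ => Pol)
      (Bool.rec (motive := fun _ => Pol) (b :: r) (a :: ih (b :: q)) (Nat.ble a.1 b.1))
      (consZ a.1 (Int.add a.2 b.2) (ih q)) (Nat.beq a.1 b.1)) q

/-- the sum of two polynomials (sorted by codes) -/
noncomputable def add (p : Pol) : Pol → Pol :=
  List.rec (motive := fun _ => Pol → Pol) (fun q => q) (fun a p ih q => addAux a p ih q) p

/-- the product with a monomial -/
noncomputable def mulMon (a : ℕ × ℤ) (q : Pol) : Pol :=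
  List.rec (motive := fun _ => Pol) []
    (fun b _ r => (Nat.mul a.1 b.1, Int.mul a.2 b.2) :: r) q

/-- the product -/
noncomputable def mul (p q : Pol) : Pol :=
  List.rec (motive := fun _ => Pol) [] (fun a _ r => add (mulMon a q) r) p

/-- certificates -/
inductive NN
  | pp : List (ℕ × ℕ) → NN
  | g : ℕ → NN
  | add : NN → NN → NN
  | mul : NN → NN → NN
  | sq : Pol → NN

/-- a polynomial with natural coefficients -/
noncomputable def ofNat (p : List (ℕ × ℕ)) : Pol :=
  List.rec (motive := fun _ => Pol) [] (fun a _ r => (a.1, Int.ofNat a.2) :: r) p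

/-- an entry of a list -/
def get : List Pol → ℕ → Pol
  | [], _ => []
  | a :: _, 0 => a
  | _ :: l, n + 1 => get l n

/-- the polynomial of a certificate -/
noncomputable def toPol (gs : List Pol) (e : NN) : Pol :=
  NN.rec (motive := fun _ => Pol) (fun p => ofNat p) (fun j => get gs j)
    (fun _ _ a b => Cert.add a b) (fun _ _ a b => Cert.mul a b) (fun p => Cert.mul p p) e

/-- equality of integers -/
noncomputable def eqZ (a b : ℤ) : Bool :=
  Int.rec (motive := fun _ => Bool)
    (fun m => Int.rec (motive := fun _ => Bool) (fun n => Nat.beq m n) (fun _ => false) b)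
    (fun m => Int.rec (motive := fun _ => Bool) (fun _ => false) (fun n => Nat.beq m n) b) a

/-- equality of polynomials -/
noncomputable def eqP (p : Pol) : Pol → Bool :=
  List.rec (motive := fun _ => Pol → Bool)
    (fun q => List.rec (motive := fun _ => Bool) true (fun _ _ _ => false) q)
    (fun a _ ih q => List.rec (motive := fun _ => Bool) false (fun b q _ =>
      Bool.rec (motive := fun _ => Bool) false
        (Bool.rec (motive := fun _ => Bool) false (ih q) (eqZ a.2 b.2)) (Nat.beq a.1 b.1)) q) p

/-- the check -/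
noncomputable def check (gs : List Pol) (p : Pol) (e : NN) : Bool := eqP (toPol gs e) p

/-! ### Values -/

open Classical in
/-- the value of a monomial -/
noncomputable def evM (y : ℕ → ℝ) (k : ℕ) : ℝ :=
  if k = 0 then 0 else k.factorization.prod fun p e => y p ^ e

theorem evM_mul (y : ℕ → ℝ) (a b : ℕ) : evM y (a * b) = evM y a * evM y b := by
  unfold evM
  rcases eq_or_ne a 0 with ha | ha
  · simp [ha]
  rcases eq_or_ne b 0 with hb | hb
  · simp [hb]
  rw [if_neg (mul_ne_zero ha hb), if_neg ha, if_neg hb, Nat.factorization_mul ha hb]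
  exact Finsupp.prod_add_index' (fun p => pow_zero _) (fun p m n => pow_add _ _ _)

theorem evM_one (y : ℕ → ℝ) : evM y 1 = 1 := by
  simp [evM]

theorem evM_prime (y : ℕ → ℝ) {p : ℕ} (hp : p.Prime) : evM y p = y p := by
  rw [evM, if_neg hp.ne_zero, hp.factorization]
  simp [Finsupp.prod_single_index]

theorem evM_nonneg {y : ℕ → ℝ} (hy : ∀ p, 0 ≤ y p) (k : ℕ) : 0 ≤ evM y k := by
  unfold evM
  split_ifs
  · exact le_refl _
  · exact Finset.prod_nonneg fun p _ => pow_nonneg (hy p) _

/-- the value of a polynomial -/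
noncomputable def ev (y : ℕ → ℝ) : Pol → ℝ
  | [] => 0
  | a :: p => (a.2 : ℝ) * evM y a.1 + ev y p

theorem ev_consZ (y : ℕ → ℝ) (k : ℕ) (c : ℤ) (l : Pol) :
    ev y (consZ k c l) = (c : ℝ) * evM y k + ev y l := by
  rcases c with n | n
  · have e : consZ k (Int.ofNat n) l =
      Bool.rec (motive := fun _ => Pol) ((k, Int.ofNat n) :: l) l (Nat.beq n 0) := rfl
    rw [e]
    cases h : Nat.beq n 0 with
    | true =>
      have : n = 0 := Nat.eq_of_beq_eq_true h
      simp [this]
    | false => simp [ev]
  · rfl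

theorem ev_addAux (y : ℕ → ℝ) (a : ℕ × ℤ) (p : Pol) (ih : Pol → Pol)
    (h : ∀ q, ev y (ih q) = ev y p + ev y q) (q : Pol) :
    ev y (addAux a p ih q) = (a.2 : ℝ) * evM y a.1 + ev y p + ev y q := by
  induction q with
  | nil =>
    have e : addAux a p ih [] = a :: p := rfl
    rw [e, ev, ev, add_zero]
  | cons b q ihq =>
    have e : addAux a p ih (b :: q) = Bool.rec (motive := fun _ => Pol)
      (Bool.rec (motive := fun _ => Pol) (b :: addAux a p ih q) (a :: ih (b :: q))
        (Nat.ble a.1 b.1))
      (consZ a.1 (Int.add a.2 b.2) (ih q)) (Nat.beq a.1 b.1) := rfl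
    rw [e]
    cases h1 : Nat.beq a.1 b.1 with
    | true =>
      have e1 : a.1 = b.1 := Nat.eq_of_beq_eq_true h1
      have e2 : ((Int.add a.2 b.2 : ℤ) : ℝ) = (a.2 : ℝ) + (b.2 : ℝ) := Int.cast_add _ _
      simp only [ev_consZ, h, ev, e1, e2]
      ring
    | false =>
      cases h2 : Nat.ble a.1 b.1 with
      | true =>
        simp only [ev, h]
        ring
      | false =>
        simp only [ev, ihq]
        ring

theorem ev_add (y : ℕ → ℝ) (p q : Pol) : ev y (add p q) = ev y p + ev y q := by
  induction p generalizing q with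
  | nil =>
    have e : add [] q = q := rfl
    rw [e, ev, zero_add]
  | cons a p ih =>
    have e : add (a :: p) q = addAux a p (add p) q := rfl
    rw [e, ev_addAux y a p (add p) (fun q => ih q), ev]

theorem ev_mulMon (y : ℕ → ℝ) (a : ℕ × ℤ) (q : Pol) :
    ev y (mulMon a q) = (a.2 : ℝ) * evM y a.1 * ev y q := by
  induction q with
  | nil =>
    have e : mulMon a [] = [] := rfl
    rw [e, ev, mul_zero]
  | cons b q ih =>
    have e : mulMon a (b :: q) = (Nat.mul a.1 b.1, Int.mul a.2 b.2) :: mulMon a q := rfl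
    have e1 : evM y (Nat.mul a.1 b.1) = evM y a.1 * evM y b.1 := evM_mul y _ _
    have e2 : ((Int.mul a.2 b.2 : ℤ) : ℝ) = (a.2 : ℝ) * (b.2 : ℝ) := Int.cast_mul _ _
    rw [e, ev, ev, ih, e1, e2]
    ring

theorem ev_mul (y : ℕ → ℝ) (p q : Pol) : ev y (mul p q) = ev y p * ev y q := by
  induction p with
  | nil =>
    have e : mul [] q = [] := rfl
    rw [e, ev, zero_mul]
  | cons a p ih =>
    have e : mul (a :: p) q = add (mulMon a q) (mul p q) := rfl
    rw [e, ev_add, ev_mulMon, ih, ev]
    ring

theorem ev_ofNat {y : ℕ → ℝ} (hy : ∀ p, 0 ≤ y p) (p : List (ℕ × ℕ)) : 0 ≤ ev y (ofNat p) := by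
  induction p with
  | nil => exact le_refl _
  | cons a p ih =>
    have e : ofNat (a :: p) = (a.1, Int.ofNat a.2) :: ofNat p := rfl
    rw [e, ev]
    have h2 : (0 : ℝ) ≤ ((Int.ofNat a.2 : ℤ) : ℝ) := by
      rw [Int.ofNat_eq_natCast, Int.cast_natCast]
      exact Nat.cast_nonneg _
    exact add_nonneg (mul_nonneg h2 (evM_nonneg hy a.1)) ih

theorem ev_get {y : ℕ → ℝ} {gs : List Pol} (h : ∀ g ∈ gs, 0 ≤ ev y g) (j : ℕ) :
    0 ≤ ev y (get gs j) := by
  induction gs generalizing j with
  | nil => simp [get, ev]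
  | cons a l ih =>
    cases j with
    | zero => exact h a (by simp)
    | succ n => exact ih (fun g hg => h g (by simp [hg])) n

theorem ev_toPol {y : ℕ → ℝ} (hy : ∀ p, 0 ≤ y p) {gs : List Pol} (h : ∀ g ∈ gs, 0 ≤ ev y g)
    (e : NN) : 0 ≤ ev y (toPol gs e) := by
  induction e with
  | pp p => exact ev_ofNat hy p
  | g j => exact ev_get h j
  | add a b iha ihb =>
    have e : toPol gs (NN.add a b) = Cert.add (toPol gs a) (toPol gs b) := rfl
    rw [e, ev_add]
    exact add_nonneg iha ihb
  | mul a b iha ihb =>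
    have e : toPol gs (NN.mul a b) = Cert.mul (toPol gs a) (toPol gs b) := rfl
    rw [e, ev_mul]
    exact mul_nonneg iha ihb
  | sq p =>
    have e : toPol gs (NN.sq p) = Cert.mul p p := rfl
    rw [e, ev_mul]
    exact mul_self_nonneg _

theorem eqZ_eq {a b : ℤ} (h : eqZ a b = true) : a = b := by
  rcases a with m | m <;> rcases b with n | n
  · exact congrArg Int.ofNat (Nat.eq_of_beq_eq_true h)
  · exact absurd (h : false = true) Bool.false_ne_true
  · exact absurd (h : false = true) Bool.false_ne_true
  · exact congrArg Int.negSucc (Nat.eq_of_beq_eq_true h)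

theorem eqP_eq {p q : Pol} (h : eqP p q = true) : p = q := by
  induction p generalizing q with
  | nil =>
    cases q with
    | nil => rfl
    | cons b q => exact absurd (h : false = true) Bool.false_ne_true
  | cons a p ih =>
    cases q with
    | nil => exact absurd (h : false = true) Bool.false_ne_true
    | cons b q =>
      have e : eqP (a :: p) (b :: q) = Bool.rec (motive := fun _ => Bool) false
        (Bool.rec (motive := fun _ => Bool) false (eqP p q) (eqZ a.2 b.2)) (Nat.beq a.1 b.1) := rfl
      rw [e] at h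
      cases h1 : Nat.beq a.1 b.1 with
      | false => rw [h1] at h; exact absurd (h : false = true) Bool.false_ne_true
      | true =>
        rw [h1] at h
        cases h2 : eqZ a.2 b.2 with
        | false => rw [h2] at h; exact absurd (h : false = true) Bool.false_ne_true
        | true =>
          rw [h2] at h
          rw [ih (h : eqP p q = true), Prod.ext (Nat.eq_of_beq_eq_true h1) (eqZ_eq h2)]

/-- **Soundness.** -/
theorem check_sound {gs : List Pol} {p : Pol} {e : NN} (h : check gs p e = true) {y : ℕ → ℝ}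
    (hy : ∀ k, 0 ≤ y k) (hg : ∀ g ∈ gs, 0 ≤ ev y g) : 0 ≤ ev y p := by
  rw [← eqP_eq h]
  exact ev_toPol hy hg e

/-! ### Expressions -/

/-- polynomial expressions; `v 2`, `v 3`, `v 5`, ... are the variables -/
inductive Ex
  | c : ℤ → Ex
  | v : ℕ → Ex
  | add : Ex → Ex → Ex
  | sub : Ex → Ex → Ex
  | mul : Ex → Ex → Ex

/-- the polynomial of an expression -/
noncomputable def exPol (e : Ex) : Pol :=
  Ex.rec (motive := fun _ => Pol) (fun a => consZ 1 a []) (fun k => [(k, 1)])
    (fun _ _ a b => Cert.add a b) (fun _ _ a b => Cert.add a (mulMon (1, -1) b))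
    (fun _ _ a b => Cert.mul a b) e

/-- the value of an expression -/
noncomputable def exVal (y : ℕ → ℝ) : Ex → ℝ
  | Ex.c a => (a : ℝ)
  | Ex.v k => evM y k
  | Ex.add a b => exVal y a + exVal y b
  | Ex.sub a b => exVal y a - exVal y b
  | Ex.mul a b => exVal y a * exVal y b

theorem ev_exPol (y : ℕ → ℝ) (e : Ex) : ev y (exPol e) = exVal y e := by
  induction e with
  | c a =>
    have e : exPol (Ex.c a) = consZ 1 a [] := rfl
    rw [e, ev_consZ, exVal, evM_one, ev]
    ring
  | v k =>
    have e : exPol (Ex.v k) = [(k, 1)] := rfl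
    rw [e, ev, ev, exVal]
    push_cast
    ring
  | add a b iha ihb =>
    have e : exPol (Ex.add a b) = Cert.add (exPol a) (exPol b) := rfl
    rw [e, ev_add, iha, ihb, exVal]
  | sub a b iha ihb =>
    have e : exPol (Ex.sub a b) = Cert.add (exPol a) (mulMon (1, -1) (exPol b)) := rfl
    rw [e, ev_add, ev_mulMon, iha, ihb, exVal, evM_one]
    push_cast
    ring
  | mul a b iha ihb =>
    have e : exPol (Ex.mul a b) = Cert.mul (exPol a) (exPol b) := rfl
    rw [e, ev_mul, iha, ihb, exVal]

/-- the constraints as expressions -/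
noncomputable def exPols (l : List Ex) : List Pol := l.map exPol

/-- **Certificates for expressions.** -/
theorem cert {gs : List Ex} {p : Ex} {e : NN} (h : check (gs.map exPol) (exPol p) e = true)
    {y : ℕ → ℝ} (hy : ∀ k, 0 ≤ y k) (hg : ∀ g ∈ gs, 0 ≤ exVal y g) : 0 ≤ exVal y p := by
  rw [← ev_exPol]
  refine check_sound h hy fun g hg' => ?_
  obtain ⟨a, ha, rfl⟩ := List.mem_map.1 hg'
  rw [ev_exPol]
  exact hg a ha

/-! ### Variables -/

/-- the values of the variables `v 2, v 3, v 5, v 7, v 11, v 13, v 17, v 19, v 23` -/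
noncomputable def yv (a b c d e f g h i : ℝ) (k : ℕ) : ℝ :=
  if k = 2 then a else if k = 3 then b else if k = 5 then c else if k = 7 then d
  else if k = 11 then e else if k = 13 then f else if k = 17 then g else if k = 19 then h
  else if k = 23 then i else 0

theorem yv_nonneg {a b c d e f g h i : ℝ} (ha : 0 ≤ a) (hb : 0 ≤ b) (hc : 0 ≤ c) (hd : 0 ≤ d)
    (he : 0 ≤ e) (hf : 0 ≤ f) (hg : 0 ≤ g) (hh : 0 ≤ h) (hi : 0 ≤ i) (k : ℕ) :
    0 ≤ yv a b c d e f g h i k := by
  unfold yv
  split_ifs <;> first | assumption | exact le_refl _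

section

variable (a b c d e f g h i : ℝ)

theorem exv2 : exVal (yv a b c d e f g h i) (Ex.v 2) = a := by
  rw [exVal, evM_prime _ (by norm_num)]; rfl

theorem exv3 : exVal (yv a b c d e f g h i) (Ex.v 3) = b := by
  rw [exVal, evM_prime _ (by norm_num)]; norm_num [yv]

theorem exv5 : exVal (yv a b c d e f g h i) (Ex.v 5) = c := by
  rw [exVal, evM_prime _ (by norm_num)]; norm_num [yv]

theorem exv7 : exVal (yv a b c d e f g h i) (Ex.v 7) = d := by
  rw [exVal, evM_prime _ (by norm_num)]; norm_num [yv]

theorem exv11 : exVal (yv a b c d e f g h i) (Ex.v 11) = e := by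
  rw [exVal, evM_prime _ (by norm_num)]; norm_num [yv]

theorem exv13 : exVal (yv a b c d e f g h i) (Ex.v 13) = f := by
  rw [exVal, evM_prime _ (by norm_num)]; norm_num [yv]

theorem exv17 : exVal (yv a b c d e f g h i) (Ex.v 17) = g := by
  rw [exVal, evM_prime _ (by norm_num)]; norm_num [yv]

theorem exv19 : exVal (yv a b c d e f g h i) (Ex.v 19) = h := by
  rw [exVal, evM_prime _ (by norm_num)]; norm_num [yv]

theorem exv23 : exVal (yv a b c d e f g h i) (Ex.v 23) = i := by
  rw [exVal, evM_prime _ (by norm_num)]; norm_num [yv]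

end

theorem exc (y : ℕ → ℝ) (a : ℤ) : exVal y (Ex.c a) = (a : ℝ) := rfl

theorem exadd (y : ℕ → ℝ) (a b : Ex) : exVal y (Ex.add a b) = exVal y a + exVal y b := rfl

theorem exsub (y : ℕ → ℝ) (a b : Ex) : exVal y (Ex.sub a b) = exVal y a - exVal y b := rfl

theorem exmul (y : ℕ → ℝ) (a b : Ex) : exVal y (Ex.mul a b) = exVal y a * exVal y b := rfl

end Pool.Agent.Helper83.Cert
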