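import Pool.Agent.Helper47.FC.Table

/-!
# The fast check in the form of `cert`
-/

set_option autoImplicit false

namespace Pool.Agent.Helper83.Cert

open Pool.Agent.Helper47.FC

/-- a certificate in the format of `Helper47.FC`, nine variables -/
theorem certF {y : ℕ → ℝ} {gs : List Ex} {p : Ex} (M k1 s1 k2 s2 : ℕ)
    (h : chkA V9 P9 1069 gs p M k1 s1 k2 s2 = true) (hy : ∀ k, 0 ≤ y k)
    (hg : ∀ g ∈ gs, 0 ≤ exVal y g) : 0 ≤ exVal y p :=
  chkA_sound vars9 (by decide) h hy hg

end Pool.Agent.Helper83.Cert
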