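import Pool.Agent.Helper83.Cert.RE
import Pool.Agent.Helper92.TS.RowC
import Pool.Agent.Helper92.TS.RowH

/-!
# Bounds for a good class by one computation

`rg_of`, `rh_of`, `rc_of`: all the inequalities of `RG D R` (`RH D R`, `RC D R`), the domain `D` and the
bound `R` given as data.
-/

set_option autoImplicit false

namespace Pool.Agent.Helper83.Cert

open Pool.Agent.Helper47.FC Pool.Agent.Helper74.TS Pool.Agent.Helper44.TS Pool.Agent.Helper92.TS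

/-- the value in four variables -/
@[reducible] noncomputable def V4 (d a b w : ℝ) (t : RE) : ℝ := RE.val d a b w 0 0 0 0 0 t

/-- the conjunction of the inequalities -/
@[reducible] def HC (v : RE → ℝ) (gs : List RE) : Prop :=
  List.rec (motive := fun _ => Prop) True
    (fun g l ih => List.rec (motive := fun _ => Prop) (0 ≤ v g) (fun _ _ _ => 0 ≤ v g ∧ ih) l) gs

/-- substitution -/
noncomputable def RE.sb (t : RE) (p0 p1 p2 p3 : RE) : RE :=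
  RE.rec (motive := fun _ => RE) .z .o (fun k => .n k) p0 p1 p2 p3 .z .z .z .z .z
    (fun _ _ x y => .A x y) (fun _ _ x y => .S x y) (fun _ _ x y => .M x y) (fun _ x => .N x)
    (fun _ k x => .D x k) (fun _ x => .P x) (fun _ x => .Q x) t

/-- substitution in a list -/
noncomputable def mp (p0 p1 p2 p3 : RE) (D : List RE) : List RE :=
  List.rec (motive := fun _ => List RE) [] (fun t _ ih => t.sb p0 p1 p2 p3 :: ih) D

section

variable (d a b w : ℝ)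

theorem sb_val (p0 p1 p2 p3 t : RE) : V4 d a b w (t.sb p0 p1 p2 p3) =
    V4 (V4 d a b w p0) (V4 d a b w p1) (V4 d a b w p2) (V4 d a b w p3) t := by
  induction t with
  | z => rfl
  | o => rfl
  | n k => rfl
  | v0 => rfl
  | v1 => rfl
  | v2 => rfl
  | v3 => rfl
  | v4 => rfl
  | v5 => rfl
  | v6 => rfl
  | v7 => rfl
  | v8 => rfl
  | A x y hx hy => exact congrArg₂ (· + ·) hx hy
  | S x y hx hy => exact congrArg₂ (· - ·) hx hy
  | M x y hx hy => exact congrArg₂ (· * ·) hx hy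
  | N x hx => exact congrArg (fun t => -t) hx
  | D x k hx => exact congrArg (fun t => t / (OfNat.ofNat (k + 2) : ℝ)) hx
  | P x hx => exact congrArg (fun t => t ^ 2) hx
  | Q x hx => exact congrArg (fun t => t ^ 3) hx

theorem hg_mp (p0 p1 p2 p3 : RE) (D : List RE)
    (h : HC (V4 (V4 d a b w p0) (V4 d a b w p1) (V4 d a b w p2) (V4 d a b w p3)) D) :
    HG (V4 d a b w) (mp p0 p1 p2 p3 D) := by
  induction D with
  | nil => trivial
  | cons t l ih =>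
    cases l with
    | nil =>
      have h1 : 0 ≤ V4 (V4 d a b w p0) (V4 d a b w p1) (V4 d a b w p2) (V4 d a b w p3) t := h
      refine ⟨?_, trivial⟩
      rw [sb_val]
      exact h1
    | cons t' l' =>
      have h1 : 0 ≤ V4 (V4 d a b w p0) (V4 d a b w p1) (V4 d a b w p2) (V4 d a b w p3) t ∧
        HC (V4 (V4 d a b w p0) (V4 d a b w p1) (V4 d a b w p2) (V4 d a b w p3)) (t' :: l') := h
      refine ⟨?_, ih h1.2⟩
      rw [sb_val]
      exact h1.1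

end

/-- a certificate -/
structure W where
  /-- the data -/
  (M k1 s1 k2 s2 : ℕ)

/-- the check -/
noncomputable def okE (gs : List RE) (p q : RE) (w : W) : Bool :=
  chkA V9 P9 1069 (exs gs) (.sub (q.ex (Nat.div (Nat.mul p.den q.den) (Nat.gcd p.den q.den)))
    (p.ex (Nat.div (Nat.mul p.den q.den) (Nat.gcd p.den q.den)))) w.M w.k1 w.s1 w.k2 w.s2

theorem okE_le {gs : List RE} {p q : RE} {u : W} (k : okE gs p q u = true)
    {a b c d e f g h i : ℝ} (hy : ∀ k, 0 ≤ yv a b c d e f g h i k)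
    (H : HG (RE.val a b c d e f g h i) gs) : p.val a b c d e f g h i ≤ q.val a b c d e f g h i :=
  finE hy p q gs H _ _ _ _ _ k

/-- `1 + d - a - b` -/
noncomputable def cE : RE := .S (.S (.A .o .v0) .v1) .v2

/-- `1 + d + t - b` -/
noncomputable def cE' : RE := .S (.A (.A .o .v0) .v1) .v2

/-- the main term -/
noncomputable def bsE : RE :=
  .S (.A (.S (.D (.n 5) 4) (.M (.D (.n 1) 0) .v0)) (.D (.P .v0) 0)) (.D (.Q .v0) 4)

/-- the main cell -/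
noncomputable def mE (c : RE) : RE :=
  .S bsE (.D (.M (.S .o .v0) (.A (.A (.P .v1) (.P .v2)) (.P c))) 0)

/-- the far cell -/
noncomputable def bbE (x : RE) : RE := .S (.A (.D x 2) (.D (.P x) 0)) (.D (.Q x) 10)

/-- the own cell -/
noncomputable def hOE (x : RE) : RE :=
  .S (.A (.M (.D (.n 4) 23) x) (.M (.D (.n 0) 3) (.P x))) (.M (.D (.n 29) 98) (.Q x))

/-- the cell in conflict -/
noncomputable def hCE (x : RE) : RE :=
  .A (.A (.M (.D (.n 24) 123) x) (.M (.D .o 18) (.P x))) (.M (.D (.n 7) 48) (.Q x))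

/-- the constraints: no far cell -/
@[reducible] noncomputable def gN (l : List RE) : List RE :=
  .S (.D (.n 1) 3) .v0 :: .S .v1 .v0 :: .S .v2 .v0 :: .S .o (.A .v1 .v2) :: l

/-- the constraints: a far cell -/
@[reducible] noncomputable def gP (l : List RE) : List RE :=
  .S (.D (.n 1) 3) .v0 :: .S .v0 .v1 :: .S .v2 (.S .v0 .v1) :: .S .o .v2 :: l

/-- the constraints: a far cell beyond -/
@[reducible] noncomputable def gQ (l : List RE) : List RE :=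
  .S (.D (.n 1) 3) .v0 :: .S (.S .o .v0) .v1 :: .S .v2 (.A .v0 .v1) :: .S .o .v2 ::
    .S (.A .v0 .v1) .v3 :: .S (.D (.n 11) 18) .v3 :: l

/-- the constraints: two far cells -/
@[reducible] noncomputable def gT (l : List RE) : List RE :=
  .S (.D (.n 1) 3) .v0 :: .S .v0 .v1 :: .S .v0 .v2 :: .S (.A .v1 .v2) .v0 :: l

/-- the constraints: three far cells -/
@[reducible] noncomputable def gZ (l : List RE) : List RE :=
  .S .v0 (.D .o 0) :: .S (.D (.n 1) 3) .v0 :: .S .v1 (.S .o .v0) :: .S .v0 .v1 ::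
    .S .v2 (.S .o .v0) :: .S .v0 .v2 :: .S (.A .v1 .v2) .o :: l

section

variable {D : List RE} {R : RE}

theorem f_none {u : W} (k : okE (gN (mp .v0 .v1 .v2 cE D)) (mE cE) (R.sb .v0 .v1 .v2 cE) u = true)
    (d a b : ℝ) (h0 : 0 ≤ d) (h1 : d ≤ 3 / 5) (h2 : d ≤ a) (h3 : d ≤ b) (h4 : a + b ≤ 1)
    (hD : HC (V4 d a b (1 + d - a - b)) D) :
    bs d - (1 - d) * (a ^ 2 + b ^ 2 + (1 + d - a - b) ^ 2) / 2 ≤ V4 d a b (1 + d - a - b) R := by
  have hy := yv_nonneg h0 (h0.trans h2) (h0.trans h3) (le_refl 0) (le_refl 0) (le_refl 0)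
    (le_refl 0) (le_refl 0) (le_refl 0)
  have h := okE_le k hy ⟨sn h1, sn h2, sn h3, sn h4, hg_mp d a b 0 .v0 .v1 .v2 cE D hD⟩
  exact h.trans_eq (sb_val d a b 0 .v0 .v1 .v2 cE R)

theorem f_three {u : W}
    (k : okE (gZ (mp .v0 .v1 .v2 cE D)) (.D (.n 11) 28) (R.sb .v0 .v1 .v2 cE) u = true)
    (d a b : ℝ) (h0 : 1 / 2 ≤ d) (h1 : d ≤ 3 / 5) (h2 : 1 - d ≤ a) (h3 : a ≤ d) (h4 : 1 - d ≤ b)
    (h5 : b ≤ d) (h6 : 1 ≤ a + b) (hD : HC (V4 d a b (1 + d - a - b)) D) :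
    13 / 30 ≤ V4 d a b (1 + d - a - b) R := by
  have hd : 0 ≤ d := by linarith
  have ha : 0 ≤ a := by linarith
  have hb : 0 ≤ b := by linarith
  have hy := yv_nonneg hd ha hb (le_refl 0) (le_refl 0) (le_refl 0) (le_refl 0) (le_refl 0)
    (le_refl 0)
  have h := okE_le k hy
    ⟨sn h0, sn h1, sn h2, sn h3, sn h4, sn h5, sn h6, hg_mp d a b 0 .v0 .v1 .v2 cE D hD⟩
  exact h.trans_eq (sb_val d a b 0 .v0 .v1 .v2 cE R)

theorem f_p {w : W} (hE : RE → RE) (hf : ℝ → ℝ)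
    (e : ∀ (d a b w : ℝ) (x : RE), V4 d a b w (hE x) = hf (V4 d a b w x)) (q1 q2 q3 : RE)
    (k : okE (gP (mp .v0 q1 q2 q3 D)) (.A (mE cE) (hE (.S .v0 .v1))) (R.sb .v0 q1 q2 q3) w = true)
    (d a b : ℝ) (h0 : 0 ≤ d) (h1 : d ≤ 3 / 5) (h2 : 0 ≤ a) (h3 : a ≤ d) (h4 : d - a ≤ b) (h5 : b ≤ 1)
    (hD : HC (V4 d (V4 d a b 0 q1) (V4 d a b 0 q2) (V4 d a b 0 q3)) D) :
    bs d - (1 - d) * (a ^ 2 + b ^ 2 + (1 + d - a - b) ^ 2) / 2 + hf (d - a) ≤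
      V4 d (V4 d a b 0 q1) (V4 d a b 0 q2) (V4 d a b 0 q3) R := by
  have hy := yv_nonneg h0 h2 ((sub_nonneg.2 h3).trans h4) (le_refl 0) (le_refl 0) (le_refl 0)
    (le_refl 0) (le_refl 0) (le_refl 0)
  have h := okE_le k hy ⟨sn h1, sn h3, sn h4, sn h5, hg_mp d a b 0 .v0 q1 q2 q3 D hD⟩
  have h' := h.trans_eq (sb_val d a b 0 .v0 q1 q2 q3 R)
  have e1 : V4 d a b 0 (hE (.S .v0 .v1)) = hf (d - a) := e d a b 0 (.S .v0 .v1)
  rw [← e1]
  exact h'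

theorem f_n {w : W} (hE : RE → RE) (hf : ℝ → ℝ)
    (e : ∀ (d a b w : ℝ) (x : RE), V4 d a b w (hE x) = hf (V4 d a b w x)) (q1 q2 q3 : RE)
    (k : okE (gQ (mp .v0 q1 q2 q3 D)) (.A (.A (mE cE') (.D (.Q .v1) 1)) (hE .v3))
      (R.sb .v0 q1 q2 q3) w = true)
    (d t b w : ℝ) (h0 : 0 ≤ d) (h1 : d ≤ 3 / 5) (h2 : 0 ≤ t) (h3 : t ≤ 1 - d) (h4 : d + t ≤ b)
    (h5 : b ≤ 1) (h6 : 0 ≤ w) (h7 : w ≤ d + t) (h8 : w ≤ 13 / 20)
    (hD : HC (V4 d (V4 d t b w q1) (V4 d t b w q2) (V4 d t b w q3)) D) :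
    bs d - (1 - d) * (t ^ 2 + b ^ 2 + (1 + d + t - b) ^ 2) / 2 + t ^ 3 / 3 + hf w ≤
      V4 d (V4 d t b w q1) (V4 d t b w q2) (V4 d t b w q3) R := by
  have hy := yv_nonneg h0 h2 ((add_nonneg h0 h2).trans h4) h6 (le_refl 0) (le_refl 0)
    (le_refl 0) (le_refl 0) (le_refl 0)
  have h := okE_le k hy
    ⟨sn h1, sn h3, sn h4, sn h5, sn h7, sn h8, hg_mp d t b w .v0 q1 q2 q3 D hD⟩
  have h' := h.trans_eq (sb_val d t b w .v0 q1 q2 q3 R)
  have e1 : V4 d t b w (hE .v3) = hf w := e d t b w .v3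
  rw [← e1]
  exact h'

theorem f_t {w : W} (hE : RE → RE) (hf : ℝ → ℝ)
    (e : ∀ (d a b w : ℝ) (x : RE), V4 d a b w (hE x) = hf (V4 d a b w x)) (q1 q2 q3 : RE)
    (k : okE (gT (mp .v0 q1 q2 q3 D)) (.A (.A (mE cE) (hE (.S .v0 .v1))) (bbE (.S .v0 .v2)))
      (R.sb .v0 q1 q2 q3) w = true)
    (d a b : ℝ) (h0 : 0 ≤ d) (h1 : d ≤ 3 / 5) (h2 : 0 ≤ a) (h3 : a ≤ d) (h4 : 0 ≤ b) (h5 : b ≤ d)
    (h6 : d ≤ a + b) (hD : HC (V4 d (V4 d a b 0 q1) (V4 d a b 0 q2) (V4 d a b 0 q3)) D) :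
    bs d - (1 - d) * (a ^ 2 + b ^ 2 + (1 + d - a - b) ^ 2) / 2 + hf (d - a) + bb (d - b) ≤
      V4 d (V4 d a b 0 q1) (V4 d a b 0 q2) (V4 d a b 0 q3) R := by
  have hy := yv_nonneg h0 h2 h4 (le_refl 0) (le_refl 0) (le_refl 0) (le_refl 0) (le_refl 0)
    (le_refl 0)
  have h := okE_le k hy ⟨sn h1, sn h3, sn h5, sn h6, hg_mp d a b 0 .v0 q1 q2 q3 D hD⟩
  have h' := h.trans_eq (sb_val d a b 0 .v0 q1 q2 q3 R)
  have e1 : V4 d a b 0 (hE (.S .v0 .v1)) = hf (d - a) := e d a b 0 (.S .v0 .v1)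
  rw [← e1]
  exact h'

end

theorem bbE_val (d a b w : ℝ) (x : RE) : V4 d a b w (bbE x) = bb (V4 d a b w x) := rfl

theorem hOE_val (d a b w : ℝ) (x : RE) : V4 d a b w (hOE x) = hO (V4 d a b w x) := rfl

theorem hCE_val (d a b w : ℝ) (x : RE) : V4 d a b w (hCE x) = hC (V4 d a b w x) := rfl

/-- the check of the case without a far cell -/
noncomputable def kN (D : List RE) (R : RE) (w : W) : Bool :=
  okE (gN (mp .v0 .v1 .v2 cE D)) (mE cE) (R.sb .v0 .v1 .v2 cE) w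

/-- the check of the case of a far cell -/
noncomputable def kP (D : List RE) (R : RE) (hE : RE → RE) (q1 q2 q3 : RE) (w : W) : Bool :=
  okE (gP (mp .v0 q1 q2 q3 D)) (.A (mE cE) (hE (.S .v0 .v1))) (R.sb .v0 q1 q2 q3) w

/-- the check of the case of a far cell beyond -/
noncomputable def kQ (D : List RE) (R : RE) (hE : RE → RE) (q1 q2 q3 : RE) (w : W) : Bool :=
  okE (gQ (mp .v0 q1 q2 q3 D)) (.A (.A (mE cE') (.D (.Q .v1) 1)) (hE .v3)) (R.sb .v0 q1 q2 q3) w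

/-- the check of the case of two far cells -/
noncomputable def kT (D : List RE) (R : RE) (hE : RE → RE) (q1 q2 q3 : RE) (w : W) : Bool :=
  okE (gT (mp .v0 q1 q2 q3 D)) (.A (.A (mE cE) (hE (.S .v0 .v1))) (bbE (.S .v0 .v2)))
    (R.sb .v0 q1 q2 q3) w

/-- the check of the case of three far cells -/
noncomputable def kZ (D : List RE) (R : RE) (w : W) : Bool :=
  okE (gZ (mp .v0 .v1 .v2 cE D)) (.D (.n 11) 28) (R.sb .v0 .v1 .v2 cE) w

/-- the check of all the cases -/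
noncomputable def rowE (D : List RE) (R : RE) (hE : RE → RE) (wN wP1 wQ1 wP2 wQ2 wP3 wQ3 wT1 wT2 wT3
    wZ : W) : Bool :=
  (kN D R wN).and <| (kP D R hE .v1 .v2 cE wP1).and <| (kQ D R hE (.N .v1) .v2 cE' wQ1).and <|
  (kP D R bbE .v2 .v1 cE wP2).and <| (kQ D R bbE .v2 (.N .v1) cE' wQ2).and <|
  (kP D R bbE .v2 cE .v1 wP3).and <| (kQ D R bbE .v2 cE' (.N .v1) wQ3).and <|
  (kT D R hE .v1 .v2 cE wT1).and <| (kT D R hE .v1 cE .v2 wT2).and <|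
  (kT D R bbE cE .v1 .v2 wT3).and (kZ D R wZ)

theorem rg_of (D : List RE) (R : RE) (wN wP1 wQ1 wP2 wQ2 wP3 wQ3 wT1 wT2 wT3 wZ : W)
    (k : rowE D R bbE wN wP1 wQ1 wP2 wQ2 wP3 wQ3 wT1 wT2 wT3 wZ = true) :
    RG (fun d a b c => HC (V4 d a b c) D) (fun d a b c => V4 d a b c R) := by
  unfold rowE at k
  simp only [Bool.and_eq_true] at k
  obtain ⟨cN, cP1, cQ1, cP2, cQ2, cP3, cQ3, cT1, cT2, cT3, cZ⟩ := k
  refine ⟨f_none cN,
    ⟨f_p bbE bb bbE_val .v1 .v2 cE cP1, f_n bbE bb bbE_val (.N .v1) .v2 cE' cQ1⟩,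
    ⟨f_p bbE bb bbE_val .v2 .v1 cE cP2, f_n bbE bb bbE_val .v2 (.N .v1) cE' cQ2⟩,
    ⟨f_p bbE bb bbE_val .v2 cE .v1 cP3, f_n bbE bb bbE_val .v2 cE' (.N .v1) cQ3⟩,
    f_t bbE bb bbE_val .v1 .v2 cE cT1,
    f_t bbE bb bbE_val .v1 cE .v2 cT2,
    f_t bbE bb bbE_val cE .v1 .v2 cT3,
    f_three cZ⟩

theorem rh_of (D : List RE) (R : RE) (wN wP1 wQ1 wP2 wQ2 wP3 wQ3 wT1 wT2 wT3 wZ : W)
    (k : rowE D R hOE wN wP1 wQ1 wP2 wQ2 wP3 wQ3 wT1 wT2 wT3 wZ = true) :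
    RH (fun d a b c => HC (V4 d a b c) D) (fun d a b c => V4 d a b c R) := by
  unfold rowE at k
  simp only [Bool.and_eq_true] at k
  obtain ⟨cN, cP1, cQ1, cP2, cQ2, cP3, cQ3, cT1, cT2, cT3, cZ⟩ := k
  refine ⟨f_none cN,
    ⟨f_p hOE hO hOE_val .v1 .v2 cE cP1, f_n hOE hO hOE_val (.N .v1) .v2 cE' cQ1⟩,
    ⟨f_p bbE bb bbE_val .v2 .v1 cE cP2, f_n bbE bb bbE_val .v2 (.N .v1) cE' cQ2⟩,
    ⟨f_p bbE bb bbE_val .v2 cE .v1 cP3, f_n bbE bb bbE_val .v2 cE' (.N .v1) cQ3⟩,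
    f_t hOE hO hOE_val .v1 .v2 cE cT1,
    f_t hOE hO hOE_val .v1 cE .v2 cT2,
    f_t bbE bb bbE_val cE .v1 .v2 cT3,
    f_three cZ⟩

theorem rc_of (D : List RE) (R : RE) (wN wP1 wQ1 wP2 wQ2 wP3 wQ3 wT1 wT2 wT3 wZ : W)
    (k : rowE D R hCE wN wP1 wQ1 wP2 wQ2 wP3 wQ3 wT1 wT2 wT3 wZ = true) :
    RC (fun d a b c => HC (V4 d a b c) D) (fun d a b c => V4 d a b c R) := by
  unfold rowE at k
  simp only [Bool.and_eq_true] at k
  obtain ⟨cN, cP1, cQ1, cP2, cQ2, cP3, cQ3, cT1, cT2, cT3, cZ⟩ := k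
  refine ⟨f_none cN,
    ⟨f_p hCE hC hCE_val .v1 .v2 cE cP1, f_n hCE hC hCE_val (.N .v1) .v2 cE' cQ1⟩,
    ⟨f_p bbE bb bbE_val .v2 .v1 cE cP2, f_n bbE bb bbE_val .v2 (.N .v1) cE' cQ2⟩,
    ⟨f_p bbE bb bbE_val .v2 cE .v1 cP3, f_n bbE bb bbE_val .v2 cE' (.N .v1) cQ3⟩,
    f_t hCE hC hCE_val .v1 .v2 cE cT1,
    f_t hCE hC hCE_val .v1 cE .v2 cT2,
    f_t bbE bb bbE_val cE .v1 .v2 cT3,
    f_three cZ⟩

end Pool.Agent.Helper83.Cert
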